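import Pool.Agent.Q99.FS.Abstract

/-!
# Quantitative weak sequential completeness of Lipschitz-free spaces

For every uniformly separated pointed metric space the Lipschitz-free space (real or complex) has the
quantitative Schur property and is quantitatively weakly sequentially complete, with a constant which does
not depend on the metric space.
-/

set_option autoImplicit false

namespace Pool.Agent.Results.MP_d136d9_an.QuantitativeWSC

open Q99.FS

universe v

/-- For every uniformly separated metric space `M` and both choices of the scalars, every bounded sequence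
`x` in the Lipschitz-free space of `M` satisfies `ca x ≤ 392 δ(x)` (the 392-Schur property) and
`wck x ≤ 392 δ(x)` (392-weak sequential completeness). -/
theorem result (𝕜 : Type) [RCLike 𝕜] (M : Type v) [MetricSpace M] (o : M)
    (hM : ∃ θ : ℝ, 0 < θ ∧ ∀ x y : M, x ≠ y → θ ≤ dist x y)
    (x : ℕ → FreeSp 𝕜 M o) (hx : Bornology.IsBounded (Set.range x)) :
    ca x ≤ 392 * delta 𝕜 x ∧ wck 𝕜 x ≤ 392 * delta 𝕜 x := by
  obtain ⟨θ, hθ, hs⟩ := hM
  obtain ⟨C, hC⟩ := isBounded_iff_forall_norm_le.1 hx
  have hC' : ∀ j, ‖x j‖ ≤ C := fun j => hC _ ⟨j, rfl⟩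
  have h1 := ca_le (by norm_num : (0 : ℝ) < 392) (propS_free (𝕜 := 𝕜) (o := o) hθ hs) hC'
  have h2 : ENNReal.ofReal 392 = 392 := by norm_num
  rw [h2] at h1
  exact ⟨h1, (wck_le hC').trans h1⟩

end Pool.Agent.Results.MP_d136d9_an.QuantitativeWSC
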